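import Mathlib
import Pool.Agent.N753.DR.Stm2
import Pool.Agent.Y729.RV.PF
import Pool.Agent.Y729.AE.Count
import Pool.Agent.N572.DR.Inv

/-!
# Project CV (helper753), part FLDC: few members of a linear system have a zero with small
# discriminant (helper650)
-/

set_option autoImplicit false

namespace Pool.Agent.N650.CV.FldC

open NumberField IsDedekindDomain Module Polynomial Height
open Pool.Agent.N753.DR
open Pool.Agent.H691R3 (fv)
open Pool.Agent.Y729.FW (lp lh_eq lp_support lp_nonneg logN_nonneg log_fv_le lh_one_sub)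
open Pool.Agent.Y729.RV (Nr cnt cnt_eq nr_fin fv_lt_one_iff per_field)
open Pool.Agent.W301.Lin (FS)
open scoped LinearAlgebra.Projectivization

/-! ### the elements of bounded height of a field -/

section ht

variable {L : Type} [Field L] [NumberField L]

/-- the primes at which `z` is small -/
theorem sum_small {z : L} (hz : z ≠ 0) (T : Finset (HeightOneSpectrum (𝓞 L)))
    (hT : ∀ w ∈ T, w.valuation L z < 1) :
    ∑ w ∈ T, Real.log (Ideal.absNorm w.asIdeal : ℝ) ≤ logHeight₁ z := by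
  classical
  rw [← logHeight₁_inv, lh_eq]
  have h0 : 0 ≤ ∑ w : InfinitePlace L, (w.mult : ℝ) * lp w.1 z⁻¹ :=
    Finset.sum_nonneg fun w _ => mul_nonneg (Nat.cast_nonneg _) (lp_nonneg _ _)
  have h1 : ∑ w ∈ T, Real.log (Ideal.absNorm w.asIdeal : ℝ) ≤ ∑ w ∈ T, lp (fv w) z⁻¹ := by
    refine Finset.sum_le_sum fun w hw => ?_
    have h2 : fv w z < 1 := (fv_lt_one_iff w z).2 (hT w hw)
    have h3 := log_fv_le w hz h2.le h2.ne
    have hpos : 0 < fv w z := (fv w).pos hz
    have h4 : -Real.log (fv w z) ≤ lp (fv w) z⁻¹ := by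
      unfold Pool.Agent.Y729.FW.lp
      rw [map_inv₀, ← Real.log_inv]
      exact Real.log_le_log (inv_pos.2 hpos) (le_max_left _ _)
    linarith
  have h2 : ∑ w ∈ T, lp (fv w) z⁻¹ ≤ ∑ᶠ w : HeightOneSpectrum (𝓞 L), lp (fv w) z⁻¹ := by
    rw [finsum_eq_sum_of_support_subset (s := (lp_support z⁻¹).toFinset ∪ T) _ (by
      intro v hv
      rw [Finset.coe_union, Set.Finite.coe_toFinset]
      exact Or.inl hv)]
    exact Finset.sum_le_sum_of_subset_of_nonneg Finset.subset_union_right
      fun v _ _ => lp_nonneg _ _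
  linarith

theorem cnt_le (y : L) (h0 : y ≠ 0) (h1 : y ≠ 1) :
    cnt ∅ (![0, 1] : Fin 2 → ℚ) y ≤ 2 * logHeight₁ y + finrank ℚ L * Real.log 2 := by
  classical
  have hne : ∀ j, y ≠ algebraMap ℚ L ((![0, 1] : Fin 2 → ℚ) j) := by
    intro j
    fin_cases j
    · simpa using h0
    · simpa using h1
  rw [cnt_eq ∅ hne]
  set T := (nr_fin ∅ hne).toFinset with hT
  set T0 := T.filter fun w => w.valuation L y < 1 with hT0
  set T1 := T.filter fun w => w.valuation L (1 - y) < 1 with hT1
  have hsub : T ⊆ T0 ∪ T1 := by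
    intro w hw
    have hw' : Nr ∅ (![0, 1] : Fin 2 → ℚ) y w := (nr_fin ∅ hne).mem_toFinset.1 hw
    obtain ⟨-, -, j, hj⟩ := hw'
    rw [Finset.mem_union]
    fin_cases j
    · left
      rw [hT0, Finset.mem_filter]
      refine ⟨hw, ?_⟩
      simpa using hj
    · right
      rw [hT1, Finset.mem_filter]
      refine ⟨hw, ?_⟩
      rw [Valuation.map_sub_swap]
      simpa using hj
  have h2 : ∑ w ∈ T, Real.log (Ideal.absNorm w.asIdeal : ℝ) ≤
      ∑ w ∈ T0 ∪ T1, Real.log (Ideal.absNorm w.asIdeal : ℝ) :=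
    Finset.sum_le_sum_of_subset_of_nonneg hsub fun w _ _ => logN_nonneg w
  have h3 := Finset.sum_union_inter (s₁ := T0) (s₂ := T1)
    (f := fun w => Real.log (Ideal.absNorm w.asIdeal : ℝ))
  have h4 : 0 ≤ ∑ w ∈ T0 ∩ T1, Real.log (Ideal.absNorm w.asIdeal : ℝ) :=
    Finset.sum_nonneg fun w _ => logN_nonneg w
  have h5 := sum_small h0 T0 fun w hw => (Finset.mem_filter.1 hw).2
  have h6 := sum_small (sub_ne_zero.2 h1.symm) T1 fun w hw => (Finset.mem_filter.1 hw).2
  have h7 := lh_one_sub y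
  linarith

end ht

/-- the number of elements of height at most `X` of a field of degree `n` -/
theorem elts (n : ℕ) {ε : ℝ} (hε : 0 < ε) : ∃ D : ℝ, 0 < D ∧
    ∀ (L : Type) [Field L] [NumberField L], finrank ℚ L = n → ∀ X : ℝ, 0 ≤ X →
      ∀ E : Finset L, (∀ y ∈ E, logHeight₁ y ≤ X) →
        (E.card : ℝ) ≤ D * Real.exp ((2 + ε) * X) := by
  classical
  have ha : Function.Injective (![0, 1] : Fin 2 → ℚ) := by
    intro i j h
    fin_cases i <;> fin_cases j <;> simp_all
  obtain ⟨D, hD, h⟩ := per_field (K := ℚ) (q := 2) le_rfl ∅ (by simp) ![0, 1] ha n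
    (ε := ε / 3) (by positivity)
  refine ⟨D * Real.exp ((1 + ε / 3) * (n * Real.log 2)) + 2, by positivity, ?_⟩
  intro L _ _ hL X hX E hE
  have hl2 : 0 ≤ Real.log 2 := Real.log_nonneg (by norm_num)
  have h1 := h L hL X (2 * X + n * Real.log 2) hX (by positivity) ((E.erase 0).erase 1) (by
    intro y hy
    rw [Finset.mem_erase, Finset.mem_erase] at hy
    obtain ⟨hy1, hy0, hyE⟩ := hy
    refine ⟨?_, hE y hyE, ?_⟩
    · intro j
      fin_cases j
      · simpa using hy0
      · simpa using hy1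
    · have h2 := cnt_le y hy0 hy1
      rw [hL] at h2
      have := hE y hyE
      linarith)
  have h2 : E.card ≤ ((E.erase 0).erase 1).card + 2 := by
    have h3 := Finset.pred_card_le_card_erase (s := E) (a := 0)
    have h4 := Finset.pred_card_le_card_erase (s := E.erase 0) (a := 1)
    omega
  have h2' : (E.card : ℝ) ≤ (((E.erase 0).erase 1).card : ℝ) + 2 := by exact_mod_cast h2
  have e1 : 2 / ((2 : ℕ) : ℝ) * (2 * X + n * Real.log 2) +
      ε / 3 * (X + (2 * X + n * Real.log 2)) =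
      (1 + ε / 3) * (n * Real.log 2) + (2 + ε) * X := by
    push_cast
    ring
  rw [e1, Real.exp_add] at h1
  have h5 : 1 ≤ Real.exp ((2 + ε) * X) := Real.one_le_exp (by positivity)
  calc (E.card : ℝ) ≤ (((E.erase 0).erase 1).card : ℝ) + 2 := h2'
    _ ≤ D * (Real.exp ((1 + ε / 3) * (n * Real.log 2)) * Real.exp ((2 + ε) * X)) +
          2 * Real.exp ((2 + ε) * X) := by linarith
    _ = _ := by ring

/-! ### the homomorphisms with a given value at `X` -/

theorem homs (K A : Type) [Field K] [CommRing A] [Algebra K A] [Algebra K[X] A]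
    [IsScalarTower K K[X] A] [Module.Finite K[X] A] :
    ∃ N0 : ℕ, ∀ (y : AlgebraicClosure K) (T : Finset (A →ₐ[K] AlgebraicClosure K)),
      (∀ φ ∈ T, φ (algebraMap K[X] A X) = y) → T.card ≤ N0 := by
  classical
  obtain ⟨s, hs⟩ := (Module.Finite.fg_top : (⊤ : Submodule K[X] A).FG)
  have hint : ∀ e : A, ∃ p : K[X][X], p.Monic ∧ eval₂ (algebraMap K[X] A) e p = 0 := fun e => by
    obtain ⟨p, hp, h⟩ := IsIntegral.of_finite K[X] e
    exact ⟨p, hp, h⟩
  choose p hp hp0 using hint
  refine ⟨∏ e ∈ s, (p e).natDegree, fun y T hT => ?_⟩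
  set g : K[X] →+* AlgebraicClosure K := (aeval y : K[X] →ₐ[K] AlgebraicClosure K).toRingHom with hg
  have hval : ∀ φ ∈ T, ∀ c : K[X], φ (algebraMap K[X] A c) = g c := by
    intro φ hφ c
    have h1 : φ.comp (IsScalarTower.toAlgHom K K[X] A) = (aeval y : K[X] →ₐ[K] _) := by
      apply Polynomial.algHom_ext
      rw [aeval_X]
      exact hT φ hφ
    exact DFunLike.congr_fun h1 c
  have hroot : ∀ φ ∈ T, ∀ e : A, φ e ∈ ((p e).map g).roots.toFinset := by
    intro φ hφ e
    rw [Multiset.mem_toFinset, mem_roots ((hp e).map g).ne_zero, IsRoot.def, eval_map]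
    have h1 : g = (φ : A →+* AlgebraicClosure K).comp (algebraMap K[X] A) :=
      RingHom.ext fun c => (hval φ hφ c).symm
    have h2 := Polynomial.hom_eval₂ (p e) (algebraMap K[X] A) (φ : A →+* AlgebraicClosure K) e
    rw [hp0, map_zero, ← h1] at h2
    exact h2.symm
  set F : (A →ₐ[K] AlgebraicClosure K) → (∀ e : A, e ∈ s → AlgebraicClosure K) :=
    fun φ e _ => φ e with hF
  have hinj : Set.InjOn F (T : Set _) := by
    intro φ hφ φ' hφ' h
    have hφ1 : φ ∈ T := hφ
    have hφ1' : φ' ∈ T := hφ'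
    apply AlgHom.ext
    intro a
    have ha : a ∈ Submodule.span K[X] (s : Set A) := by rw [hs]; exact Submodule.mem_top
    induction ha using Submodule.span_induction with
    | mem x hx => exact congrFun (congrFun h x) hx
    | zero => rw [map_zero, map_zero]
    | add x z _ _ hx hz => rw [map_add, map_add, hx, hz]
    | smul c x _ hx =>
      rw [Algebra.smul_def, map_mul, map_mul, hx, hval φ hφ1, hval φ' hφ1']
  rw [← Finset.card_image_of_injOn hinj]
  have hsub : T.image F ⊆ s.pi fun e => ((p e).map g).roots.toFinset := by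
    intro u hu
    obtain ⟨φ, hφ, rfl⟩ := Finset.mem_image.1 hu
    rw [Finset.mem_pi]
    intro e _
    exact hroot φ hφ e
  refine (Finset.card_le_card hsub).trans ?_
  rw [Finset.card_pi]
  refine Finset.prod_le_prod' fun e _ => ?_
  calc ((p e).map g).roots.toFinset.card ≤ ((p e).map g).roots.card :=
        Multiset.toFinset_card_le _
    _ ≤ ((p e).map g).natDegree := Polynomial.card_roots' _
    _ ≤ (p e).natDegree := Polynomial.natDegree_map_le

/-! ### the embedding into the algebraic closure -/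

theorem emb {K A M : Type} [Field K] [NumberField K] [CommRing A] [Algebra K A] [Field M]
    [NumberField M] [Algebra K M] (φ : A →ₐ[K] M) (x : A) :
    ∃ (φ' : A →ₐ[K] AlgebraicClosure K) (L : IntermediateField K (AlgebraicClosure K))
      (_ : NumberField L) (y : L), RingHom.ker φ' = RingHom.ker φ ∧ finrank K L = finrank K M ∧
      discr L = discr M ∧ (y : AlgebraicClosure K) = φ' x ∧ logHeight₁ y = logHeight₁ (φ x) := by
  haveI : FiniteDimensional K M := Module.Finite.of_restrictScalars_finite ℚ K M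
  let j : M →ₐ[K] AlgebraicClosure K := IsAlgClosed.lift
  let e : M ≃ₐ[K] j.fieldRange := j.equivFieldRange
  haveI : FiniteDimensional K j.fieldRange := e.toLinearEquiv.finiteDimensional
  haveI : NumberField j.fieldRange := NumberField.of_module_finite K j.fieldRange
  have hfr : finrank K j.fieldRange = finrank K M := e.toLinearEquiv.finrank_eq.symm
  refine ⟨j.comp φ, j.fieldRange, inferInstance, e (φ x), ?_, hfr, ?_, rfl, ?_⟩
  · ext a
    rw [RingHom.mem_ker, RingHom.mem_ker, AlgHom.comp_apply, map_eq_zero]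
  · exact discr_eq_discr_of_ringEquiv _ e.toRingEquiv.symm
  · letI : Algebra M j.fieldRange := (e : M →+* j.fieldRange).toAlgebra
    haveI : IsScalarTower K M j.fieldRange :=
      IsScalarTower.of_algebraMap_eq fun a => (e.commutes a).symm
    have h1 : finrank K M * finrank M j.fieldRange = finrank K j.fieldRange :=
      finrank_mul_finrank K M j.fieldRange
    have h3 : 0 < finrank K M := finrank_pos
    have h4 : finrank M j.fieldRange = 1 := by
      rw [hfr] at h1
      exact Nat.eq_of_mul_eq_mul_left h3 (by rw [h1, mul_one])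
    have h5 := Pool.Agent.N572.DR.Inv.ht_ext (L := M) (M := j.fieldRange) (φ x)
    rw [h4, Nat.cast_one, one_mul] at h5
    rw [← h5]
    rfl

/-! ### counting -/

theorem fin_of {α : Type*} {S : Set α} {B : ℝ}
    (h : ∀ T : Finset α, (∀ P ∈ T, P ∈ S) → (T.card : ℝ) ≤ B) : S.Finite ∧ (S.ncard : ℝ) ≤ B := by
  have hfin : S.Finite := by
    by_contra hcon
    obtain ⟨T, hT, hc⟩ := Set.Infinite.exists_subset_card_eq (s := S) hcon (⌊B⌋₊ + 1)
    have h1 := h T fun P hP => hT hP
    rw [hc] at h1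
    have := Nat.lt_floor_add_one B
    push_cast at h1
    linarith
  refine ⟨hfin, ?_⟩
  rw [Set.ncard_eq_toFinset_card S hfin]
  exact h _ fun P hP => hfin.mem_toFinset.1 hP

theorem pairs {K : Type} [Field K] [NumberField K] {r : ℕ} {X V D ε : ℝ}
    (hfin : (FS K r X).Finite) (hV : 0 ≤ V)
    (hD : ∀ (L : Type) [Field L] [NumberField L], finrank ℚ L = finrank ℚ K * r →
      ∀ X : ℝ, 0 ≤ X → ∀ E : Finset L, (∀ y ∈ E, logHeight₁ y ≤ X) →
        (E.card : ℝ) ≤ D * Real.exp ((2 + ε) * X)) (hD0 : 0 < D)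
    (E : Finset (IntermediateField K (AlgebraicClosure K) × AlgebraicClosure K))
    (hE : ∀ p ∈ E, p.1 ∈ FS K r X ∧ ∃ (_ : NumberField p.1) (y : p.1),
      (y : AlgebraicClosure K) = p.2 ∧ logHeight₁ y ≤ V) :
    (E.card : ℝ) ≤ (FS K r X).ncard * (D * Real.exp ((2 + ε) * V)) := by
  classical
  set F : Finset (IntermediateField K (AlgebraicClosure K)) := E.image Prod.fst with hFd
  have hcard : (E.card : ℝ) = ∑ L ∈ F, ((E.filter fun p => p.1 = L).card : ℝ) := by
    rw [Finset.card_eq_sum_card_image Prod.fst E]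
    push_cast
    rfl
  have hone : ∀ L ∈ F, ((E.filter fun p => p.1 = L).card : ℝ) ≤
      D * Real.exp ((2 + ε) * V) := by
    intro L hL
    obtain ⟨p0, hp0, rfl⟩ := Finset.mem_image.1 hL
    obtain ⟨⟨hfr, -⟩, hnf, -⟩ := hE p0 hp0
    set f : AlgebraicClosure K → p0.1 := fun y => if h : y ∈ p0.1 then ⟨y, h⟩ else 0 with hf
    set G := E.filter fun p => p.1 = p0.1 with hG
    have hGm : ∀ p ∈ G, p ∈ E ∧ p.1 = p0.1 := fun p hp => Finset.mem_filter.1 hp
    have hgx : ∀ p ∈ G, ∃ x : p0.1, (x : AlgebraicClosure K) = p.2 ∧ f p.2 = x ∧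
        logHeight₁ x ≤ V := by
      rintro ⟨p1, p2⟩ hp
      obtain ⟨hpE, hp1⟩ := hGm _ hp
      simp only at hp1
      subst hp1
      obtain ⟨-, _, x, hx, hx0⟩ := hE _ hpE
      refine ⟨x, hx, ?_, hx0⟩
      rw [hf]
      simp only at hx
      simp only
      rw [← hx, dif_pos x.2]
    have hinj : Set.InjOn (fun p : IntermediateField K (AlgebraicClosure K) ×
        AlgebraicClosure K => f p.2) (G : Set _) := by
      intro p hp q hq hpq
      obtain ⟨x, hx, hgx', -⟩ := hgx p (Finset.mem_coe.1 hp)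
      obtain ⟨y, hy, hgy', -⟩ := hgx q (Finset.mem_coe.1 hq)
      simp only at hpq
      rw [hgx', hgy'] at hpq
      refine Prod.ext ((hGm p (Finset.mem_coe.1 hp)).2.trans
        (hGm q (Finset.mem_coe.1 hq)).2.symm) ?_
      rw [← hx, ← hy, hpq]
    rw [← Finset.card_image_of_injOn hinj]
    have hdeg : finrank ℚ p0.1 = finrank ℚ K * r := by
      rw [← finrank_mul_finrank ℚ K p0.1, hfr]
    refine hD p0.1 hdeg V hV _ ?_
    intro y hy
    obtain ⟨p, hp, rfl⟩ := Finset.mem_image.1 hy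
    obtain ⟨x, -, hgx', hc⟩ := hgx p hp
    rw [hgx']
    exact hc
  have hFs : (F.card : ℝ) ≤ (FS K r X).ncard := by
    rw [Set.ncard_eq_toFinset_card _ hfin]
    have : F ⊆ hfin.toFinset := by
      intro L hL
      obtain ⟨p0, hp0, rfl⟩ := Finset.mem_image.1 hL
      exact hfin.mem_toFinset.2 (hE p0 hp0).1
    exact_mod_cast Finset.card_le_card this
  calc (E.card : ℝ) = ∑ L ∈ F, ((E.filter fun p => p.1 = L).card : ℝ) := hcard
    _ ≤ ∑ _L ∈ F, D * Real.exp ((2 + ε) * V) := Finset.sum_le_sum hone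
    _ = F.card * (D * Real.exp ((2 + ε) * V)) := by rw [Finset.sum_const, nsmul_eq_mul]
    _ ≤ _ := mul_le_mul_of_nonneg_right hFs (by positivity)

/-- **CV/FLDC** -/
theorem t (hH : StmHtC) : StmFldC := by
  classical
  obtain ⟨e, he1, he2, -, -, hF⟩ := Pool.Agent.Y729.AE.linnikK
  refine ⟨e, he1, he2, ?_⟩
  intro K A _ _ _ _ _ _ _ _ _ m f hf Q r hQ1 hQ2 G hG ν hν
  obtain ⟨C0, hC0⟩ := hH K A m f hf
  -- the degree of the field
  have hdeg : ∀ (P : ℙ K (Fin m → K)), MvPolynomial.eval P.rep Q ≠ 0 → ∀ (M : Type) [Field M]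
      [Algebra K M] (φ : A →ₐ[K] M), Function.Surjective φ →
      RingHom.ker φ = Ideal.span {mem f P.rep} → finrank K M = r := by
    intro P hP M _ _ φ hφ hk
    have h1 := hQ2 P.rep hP
    rw [← hk] at h1
    rw [← h1]
    exact (Ideal.quotientKerAlgEquivOfSurjective hφ).toLinearEquiv.finrank_eq.symm
  rcases Nat.eq_zero_or_pos r with hr | hr
  · refine ⟨0, fun U hU => ?_⟩
    have hempty : {P : ℙ K (Fin m → K) | MvPolynomial.eval P.rep Q ≠ 0 ∧ SmD f G P ∧
        logHeight P.rep ≤ U} = ∅ := by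
      rw [Set.eq_empty_iff_forall_notMem]
      rintro P ⟨hP, ⟨M, _, _, _, φ, hφ, hk, -⟩, -⟩
      have h1 := hdeg P hP M φ hφ hk
      haveI : FiniteDimensional K M := Module.Finite.of_restrictScalars_finite ℚ K M
      have h2 : 0 < finrank K M := finrank_pos
      omega
    rw [hempty]
    simp
  obtain ⟨N0, hN0⟩ := homs K A
  set N : ℕ := finrank K[X] A with hN
  set ε : ℝ := ν / (N + 1) with hε
  have hε0 : 0 < ε := by positivity
  obtain ⟨D, hD, hel⟩ := elts (finrank ℚ K * r) hε0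
  obtain ⟨C1, hC1, hfs⟩ := hF r hr (finrank ℚ K)
  refine ⟨N0 * (C1 * (D * Real.exp ((2 + ε) * |C0|))), fun U hU => ?_⟩
  set X0 : ℝ := Real.exp (G * U) with hX0
  have hX1 : 1 ≤ X0 := Real.one_le_exp (by positivity)
  obtain ⟨hfin, hcf⟩ := hfs K rfl X0 hX1
  set V : ℝ := N * U + |C0| with hV
  have hV0 : 0 ≤ V := by positivity
  have data0 : ∀ P : ℙ K (Fin m → K),
      (MvPolynomial.eval P.rep Q ≠ 0 ∧ SmD f G P ∧ logHeight P.rep ≤ U) →
      ∃ t : (A →ₐ[K] AlgebraicClosure K) × IntermediateField K (AlgebraicClosure K),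
      RingHom.ker t.1 = Ideal.span {mem f P.rep} ∧ t.2 ∈ FS K r X0 ∧
        ∃ (_ : NumberField t.2) (y : t.2), (y : AlgebraicClosure K) =
          t.1 (algebraMap K[X] A Polynomial.X) ∧ logHeight₁ y ≤ V := by
    rintro P ⟨hP1, ⟨M, _, _, _, φ, hφ, hk, hd⟩, hP2⟩
    have h1 := hdeg P hP1 M φ hφ hk
    obtain ⟨φ', L, hnf, y, g1, g2, g3, g4, g5⟩ := emb φ (algebraMap K[X] A Polynomial.X)
    refine ⟨(φ', L), ⟨g1.trans hk, ⟨g2.trans h1, hnf, ?_⟩, hnf, y, g4, ?_⟩⟩
    · rw [g3, hX0]
      have h2 : Real.log |(discr M : ℝ)| ≤ G * U :=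
        hd.le.trans (mul_le_mul_of_nonneg_left hP2 hG)
      have h3 : 0 < |(discr M : ℝ)| := by
        rw [abs_pos]
        exact_mod_cast discr_ne_zero M
      have h4 := (Real.log_le_iff_le_exp h3).1 h2
      push_cast
      exact h4
    · rw [g5]
      have h2 := hC0 M φ P.rep hφ hk P.rep_nonzero
      have h3 : (N : ℝ) * logHeight P.rep ≤ N * U :=
        mul_le_mul_of_nonneg_left hP2 (Nat.cast_nonneg _)
      have h4 := le_abs_self C0
      rw [hV]
      linarith
  refine fin_of ?_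
  intro T hT
  rcases T.eq_empty_or_nonempty with hTe | ⟨P0, hP0⟩
  · rw [hTe, Finset.card_empty, Nat.cast_zero]
    positivity
  obtain ⟨t0, -⟩ := data0 P0 (hT P0 hP0)
  have data : ∀ P : ℙ K (Fin m → K), ∃ t : (A →ₐ[K] AlgebraicClosure K) ×
      IntermediateField K (AlgebraicClosure K),
      (MvPolynomial.eval P.rep Q ≠ 0 ∧ SmD f G P ∧ logHeight P.rep ≤ U) →
      RingHom.ker t.1 = Ideal.span {mem f P.rep} ∧ t.2 ∈ FS K r X0 ∧
        ∃ (_ : NumberField t.2) (y : t.2), (y : AlgebraicClosure K) =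
          t.1 (algebraMap K[X] A Polynomial.X) ∧ logHeight₁ y ≤ V := by
    intro P
    by_cases hP : MvPolynomial.eval P.rep Q ≠ 0 ∧ SmD f G P ∧ logHeight P.rep ≤ U
    · obtain ⟨t, ht⟩ := data0 P hP
      exact ⟨t, fun _ => ht⟩
    · exact ⟨t0, fun h => absurd h hP⟩
  choose t ht using data
  set g : ℙ K (Fin m → K) → IntermediateField K (AlgebraicClosure K) × AlgebraicClosure K :=
    fun P => ((t P).2, (t P).1 (algebraMap K[X] A Polynomial.X)) with hg
  -- the point is determined by the homomorphism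
  have hinj : ∀ P ∈ T, ∀ P' ∈ T, (t P).1 = (t P').1 → P = P' := by
    intro P hP P' hP' h
    have h1 := (ht P (hT P hP)).1
    have h2 := (ht P' (hT P' hP')).1
    have h3 : Ideal.span {mem f P.rep} = Ideal.span {mem f P'.rep} := by
      rw [← h1, ← h2, h]
    obtain ⟨l, hl, h4⟩ := hQ1 _ _ (hT P hP).1 h3
    rw [← P.mk_rep, ← P'.mk_rep, Projectivization.mk_eq_mk_iff']
    refine ⟨l⁻¹, ?_⟩
    rw [h4, smul_smul, inv_mul_cancel₀ hl, one_smul]
  have h1 : T.card ≤ N0 * (T.image g).card := by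
    refine Finset.card_le_mul_card_image T N0 ?_
    intro a ha
    rw [← Finset.card_image_of_injOn (f := fun P => (t P).1)]
    · refine hN0 a.2 _ ?_
      intro φ hφ
      obtain ⟨P, hP, rfl⟩ := Finset.mem_image.1 hφ
      have h2 := (Finset.mem_filter.1 hP).2
      rw [← h2]
    · intro P hP P' hP' h
      exact hinj P (Finset.mem_filter.1 hP).1 P' (Finset.mem_filter.1 hP').1 h
  have h2 : ((T.image g).card : ℝ) ≤ (FS K r X0).ncard * (D * Real.exp ((2 + ε) * V)) := by
    refine pairs hfin hV0 hel hD _ ?_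
    intro p hp
    obtain ⟨P, hP, rfl⟩ := Finset.mem_image.1 hp
    exact (ht P (hT P hP)).2
  have h1' : (T.card : ℝ) ≤ N0 * ((T.image g).card : ℝ) := by exact_mod_cast h1
  have h3 : X0 ^ e r = Real.exp (G * e r * U) := by
    rw [hX0, ← Real.exp_mul]
    congr 1
    ring
  have h4 : Real.exp ((2 + ε) * V) ≤ Real.exp ((2 + ε) * |C0|) * Real.exp ((2 * N + ν) * U) := by
    rw [← Real.exp_add]
    refine Real.exp_le_exp.2 ?_
    have h5 : ε * N ≤ ν := by
      rw [hε, div_mul_eq_mul_div, div_le_iff₀ (by positivity)]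
      nlinarith
    have h6 : ε * N * U ≤ ν * U := mul_le_mul_of_nonneg_right h5 hU
    rw [hV]
    nlinarith
  calc (T.card : ℝ) ≤ N0 * ((T.image g).card : ℝ) := h1'
    _ ≤ N0 * ((FS K r X0).ncard * (D * Real.exp ((2 + ε) * V))) := by gcongr
    _ ≤ N0 * ((C1 * X0 ^ e r) * (D * (Real.exp ((2 + ε) * |C0|) *
          Real.exp ((2 * N + ν) * U)))) := by gcongr
    _ = N0 * (C1 * (D * Real.exp ((2 + ε) * |C0|))) *
          (Real.exp (G * e r * U) * Real.exp ((2 * N + ν) * U)) := by
        rw [h3]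
        ring
    _ = _ := by
        rw [← Real.exp_add]
        congr 2
        ring

end Pool.Agent.N650.CV.FldC
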